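import Pool.Agent.V7H1.SM.LogB
import Pool.Agent.V7H1.HW.Basic

/-! The summation theorem for Euler products of Hasse-Weil type. -/

set_option autoImplicit false

namespace Pool.Agent.V7H1.SM

open Filter Topology Set Metric
open Pool.Agent.V7H1.HW (Good Frob Euler)
open Pool.Agent.N41.RM (EG fq cq)

variable {ι : Type} {A : ℝ} {lam : ι → ℝ} {c : ι → ℂ}

theorem CD.neg (D : CD A lam c) : CD A lam (fun i => -c i) where
  nonneg := D.nonneg
  sum := fun σ hσ => by simpa using D.sum σ hσ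

theorem cser_neg (lam : ι → ℝ) (c : ι → ℂ) (s : ℂ) :
    cser lam (fun i => -c i) s = -cser lam c s := by
  unfold cser
  rw [← tsum_neg]
  refine tsum_congr fun i => ?_
  ring

theorem rot_neg (lam : ι → ℝ) (c : ι → ℂ) (γ T : ℝ) (s : ℂ) :
    rot lam (fun i => -c i) γ T s = -rot lam c γ T s := by
  unfold rot
  rw [← tsum_neg]
  refine tsum_congr fun i => ?_
  ring

/-- the equivalence with lower bounds -/
theorem CD.lower [Countable ι] (D : CD A lam c) {U : Set ℂ} (hU : RightOpen U) (γ : ℝ) :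
    (∃ F : ℂ → ℂ, DifferentiableOn ℂ F U ∧ (∀ s ∈ U, F s ≠ 0) ∧
        ∀ s ∈ U, A < s.re → F s = Complex.exp (cser lam c s)) ↔
    ∃ t : ℕ → ℝ, Tendsto t atTop atTop ∧ (∀ k, 0 < t k) ∧
      ∀ s ∈ U, ∃ r > 0, ∃ m > 0, ∀ k, ∀ z ∈ ball s r,
        m ≤ ‖Complex.exp (rot lam c γ (t k) z)‖ := by
  have h1 := (D.neg.tfae hU γ).out 0 1
  have h2 : (∃ F : ℂ → ℂ, DifferentiableOn ℂ F U ∧ (∀ s ∈ U, F s ≠ 0) ∧
        ∀ s ∈ U, A < s.re → F s = Complex.exp (cser lam c s)) ↔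
      ∃ F : ℂ → ℂ, DifferentiableOn ℂ F U ∧ (∀ s ∈ U, F s ≠ 0) ∧
        ∀ s ∈ U, A < s.re → F s = Complex.exp (cser lam (fun i => -c i) s) := by
    constructor
    · rintro ⟨F, e1, e2, e3⟩
      refine ⟨fun s => (F s)⁻¹, e1.inv e2, fun s hs => inv_ne_zero (e2 s hs), fun s hs hA => ?_⟩
      simp only
      rw [e3 s hs hA, cser_neg, Complex.exp_neg]
    · rintro ⟨F, e1, e2, e3⟩
      refine ⟨fun s => (F s)⁻¹, e1.inv e2, fun s hs => inv_ne_zero (e2 s hs), fun s hs hA => ?_⟩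
      simp only
      rw [e3 s hs hA, cser_neg, Complex.exp_neg, inv_inv]
  rw [h2, h1]
  refine exists_congr fun t => and_congr_right fun _ => and_congr_right fun _ =>
    forall₂_congr fun s _ => exists_congr fun r => and_congr_right fun hr => ?_
  have h3 : ∀ k z, ‖Complex.exp (rot lam (fun i => -c i) γ (t k) z)‖ =
      ‖Complex.exp (rot lam c γ (t k) z)‖⁻¹ := by
    intro k z
    rw [rot_neg, Complex.exp_neg, norm_inv]
  simp_rw [h3]
  have hpos : ∀ k z, 0 < ‖Complex.exp (rot lam c γ (t k) z)‖ := fun k z =>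
    norm_pos_iff.2 (Complex.exp_ne_zero _)
  constructor
  · rintro ⟨M, hM⟩
    have hM0 : 0 < M := lt_of_lt_of_le (inv_pos.2 (hpos 0 s)) (hM 0 s (mem_ball_self hr))
    exact ⟨M⁻¹, inv_pos.2 hM0, fun k z hz => inv_le_of_inv_le₀ (hpos k z) (hM k z hz)⟩
  · rintro ⟨m, hm, hM⟩
    exact ⟨m⁻¹, fun k z hz => inv_anti₀ hm (hM k z hz)⟩

/-! ### Frobenius data -/

/-- the frequencies -/
noncomputable def fr {N : ℕ} (x : Good N × ℕ) : ℝ := (x.2 + 1) * Real.log ((x.1.1 : ℕ) : ℝ)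

/-- the coefficients: the traces of the powers of Frobenius, divided by the exponents -/
noncomputable def tr {N b : ℕ} (α : Good N → Fin b → ℂ) (x : Good N × ℕ) : ℂ :=
  (∑ j, α x.1 j ^ (x.2 + 1)) / (x.2 + 1)

variable {N i b : ℕ} {α : Good N → Fin b → ℂ}

theorem tr_eq (E : Frob N i b α) (x : Good N × ℕ) : tr α x = (cq α x : ℂ) := by
  obtain ⟨P, hP⟩ := E.integral x.1
  have h1 := Pool.Agent.V7H1.HW.power_real hP (x.2 + 1)
  have h2 : ((∑ j, α x.1 j ^ (x.2 + 1)).re : ℂ) = ∑ j, α x.1 j ^ (x.2 + 1) := by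
    apply Complex.ext
    · simp
    · rw [h1, Complex.ofReal_im]
  unfold tr cq
  push_cast
  rw [h2]

theorem cd (E : Frob N i b α) : CD (1 + (i : ℝ) / 2) (fr (N := N)) (tr α) where
  nonneg := fun x => E.eg.fq_nonneg x
  sum := fun σ hσ => by
    refine (E.eg.summable (σ := σ) hσ).congr fun x => ?_
    rw [tr_eq E, Complex.norm_real, Real.norm_eq_abs]
    rfl

theorem exp_cser (E : Frob N i b α) {s : ℂ} (hs : 1 + (i : ℝ) / 2 < s.re) :
    Complex.exp (cser fr (tr α) s) = Euler α s := by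
  have h1 := (E.eg.hasProd (w := s) hs).tprod_eq
  have h2 : cser fr (tr α) s = Pool.Agent.W189.ML.ser (fq fun p : Good N => ((p.1 : ℕ) : ℝ))
      (cq α) s := by
    unfold cser Pool.Agent.W189.ML.ser
    refine tsum_congr fun x => ?_
    rw [tr_eq E]
    rfl
  rw [h2, ← h1]
  rfl

end Pool.Agent.V7H1.SM
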