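import Mathlib

/-! Convergence of sequences of entire functions with real parts locally bounded above: a form of
Vitali's theorem along horizontal half lines. -/

set_option autoImplicit false

namespace Pool.Agent.V7H1.SM

open Complex Filter Topology Set Metric
open scoped Nat

/-- all derivatives converge at the point -/
def CP (f : ℕ → ℂ → ℂ) (c : ℂ) : Prop :=
  ∀ m, ∃ l, Tendsto (fun k => iteratedDeriv m (f k) c) atTop (𝓝 l)

theorem iter_diff {f : ℂ → ℂ} (hf : Differentiable ℂ f) (m : ℕ) :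
    Differentiable ℂ (iteratedDeriv m f) := by
  induction m with
  | zero => rwa [iteratedDeriv_zero]
  | succ m ih =>
    rw [iteratedDeriv_succ]
    have h1 := (ih.differentiableOn (s := univ)).deriv isOpen_univ
    exact fun s => h1.differentiableAt (by simp)

theorem iter_iter (f : ℂ → ℂ) (m n : ℕ) :
    iteratedDeriv n (iteratedDeriv m f) = iteratedDeriv (m + n) f := by
  rw [iteratedDeriv_eq_iterate, iteratedDeriv_eq_iterate, iteratedDeriv_eq_iterate,
    ← Function.iterate_add_apply, add_comm]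

/-- the bounds from one-sided bounds -/
theorem bc {f : ℕ → ℂ → ℂ} (hf : ∀ k, Differentiable ℂ (f k)) {c : ℂ} {R M : ℝ}
    (hM : ∀ k, ∀ s ∈ ball c R, (f k s).re ≤ M) {l : ℂ}
    (hl : Tendsto (fun k => f k c) atTop (𝓝 l)) {r : ℝ} (hr : r < R) :
    ∃ C, ∀ k, ∀ s ∈ closedBall c r, ‖f k s‖ ≤ C := by
  rcases lt_or_ge r 0 with h0 | h0
  · exact ⟨0, fun k s hs => by
      have : closedBall c r = ∅ := closedBall_eq_empty.2 h0
      rw [this] at hs
      exact absurd hs (Set.notMem_empty s)⟩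
  obtain ⟨B, hB⟩ := hl.norm.bddAbove_range
  have hB' : ∀ k, ‖f k c‖ ≤ B := fun k => hB ⟨k, rfl⟩
  have hB0 : 0 ≤ B := (norm_nonneg _).trans (hB' 0)
  set M' : ℝ := max M 1 with hM'
  have hM'0 : 0 < M' := lt_of_lt_of_le one_pos (le_max_right _ _)
  have hR : 0 < R := h0.trans_lt hr
  refine ⟨2 * M' * r / (R - r) + B * (R + r) / (R - r), fun k s hs => ?_⟩
  rw [mem_closedBall, dist_eq_norm] at hs
  have hd : DifferentiableOn ℂ (fun z => f k (c + z)) (ball 0 R) :=
    ((hf k).comp (by fun_prop)).differentiableOn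
  have h1 := borelCaratheodory (f := fun z => f k (c + z)) (M := M') (R := R) (z := s - c) hM'0 hd
    (fun z hz => by
      show (f k (c + z)).re ≤ M'
      refine (hM k (c + z) ?_).trans (le_max_left _ _)
      rw [mem_ball, dist_eq_norm]
      rw [mem_ball_zero_iff] at hz
      simpa using hz) hR (by
      rw [mem_ball_zero_iff]
      exact hs.trans_lt hr)
  simp only [add_sub_cancel, add_zero] at h1
  have hden : 0 < R - r := by linarith
  have hden2 : R - r ≤ R - ‖s - c‖ := by linarith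
  have hn := norm_nonneg (s - c)
  refine h1.trans ?_
  gcongr
  exact hB' k

/-- Tannery's theorem for Taylor series -/
theorem tann {g : ℕ → ℂ → ℂ} {c : ℂ} {R : ℝ} (hd : ∀ k, Differentiable ℂ (g k))
    (hb : ∀ r < R, ∃ C, ∀ k, ∀ s ∈ closedBall c r, ‖g k s‖ ≤ C) {l : ℕ → ℂ}
    (hl : ∀ n, Tendsto (fun k => iteratedDeriv n (g k) c) atTop (𝓝 (l n))) :
    DifferentiableOn ℂ (fun s => ∑' n : ℕ, (n ! : ℂ)⁻¹ * l n * (s - c) ^ n) (ball c R) ∧
    ∀ s ∈ ball c R, Tendsto (fun k => g k s) atTop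
      (𝓝 (∑' n : ℕ, (n ! : ℂ)⁻¹ * l n * (s - c) ^ n)) := by
  -- bounds for the coefficients
  have hco : ∀ r, 0 < r → r < R → ∃ C, 0 ≤ C ∧ (∀ k n, ‖(n ! : ℂ)⁻¹ * iteratedDeriv n (g k) c‖ ≤
      C / r ^ n) ∧ ∀ n, ‖(n ! : ℂ)⁻¹ * l n‖ ≤ C / r ^ n := by
    intro r hr hrR
    obtain ⟨C, hC⟩ := hb r hrR
    have hC0 : 0 ≤ C := (norm_nonneg _).trans (hC 0 c (mem_closedBall_self hr.le))
    have h1 : ∀ k n, ‖(n ! : ℂ)⁻¹ * iteratedDeriv n (g k) c‖ ≤ C / r ^ n := by
      intro k n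
      have h2 := norm_iteratedDeriv_le_of_forall_mem_sphere_norm_le (f := g k) (c := c) n hr
        (hd k).diffContOnCl fun z hz => hC k z (sphere_subset_closedBall hz)
      have h3 : (0 : ℝ) < n ! := by exact_mod_cast Nat.factorial_pos n
      rw [norm_mul, norm_inv, Complex.norm_natCast]
      rw [inv_mul_le_iff₀ h3]
      refine h2.trans (le_of_eq ?_)
      ring
    refine ⟨C, hC0, h1, fun n => ?_⟩
    have h4 := ((hl n).const_mul (n ! : ℂ)⁻¹).norm
    exact le_of_tendsto h4 (Eventually.of_forall fun k => h1 k n)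
  constructor
  · -- differentiability
    intro s hs
    have hs' := hs
    rw [mem_ball, dist_eq_norm] at hs'
    obtain ⟨r, hr1, hr2⟩ := exists_between hs'
    have hr0 : 0 < r := (norm_nonneg _).trans_lt hr1
    obtain ⟨ρ, hρ1, hρ2⟩ := exists_between hr1
    have hρ0 : 0 < ρ := (norm_nonneg _).trans_lt hρ1
    obtain ⟨C, hC0, -, hC⟩ := hco r hr0 hr2
    have hsum : Summable fun n : ℕ => C * (ρ / r) ^ n :=
      (summable_geometric_of_lt_one (by positivity) ((div_lt_one hr0).2 hρ2)).mul_left C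
    have h1 : DifferentiableOn ℂ (fun s => ∑' n : ℕ, (n ! : ℂ)⁻¹ * l n * (s - c) ^ n)
        (ball c ρ) := by
      refine Complex.differentiableOn_tsum_of_summable_norm hsum (fun n => ?_) isOpen_ball
        (fun n z hz => ?_)
      · exact Differentiable.differentiableOn (by fun_prop)
      · rw [mem_ball, dist_eq_norm] at hz
        rw [norm_mul, norm_pow]
        calc ‖(n ! : ℂ)⁻¹ * l n‖ * ‖z - c‖ ^ n ≤ C / r ^ n * ρ ^ n := by
              gcongr
              exact hC n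
          _ = C * (ρ / r) ^ n := by rw [div_pow]; ring
    exact (h1.differentiableAt (isOpen_ball.mem_nhds (by
      rw [mem_ball, dist_eq_norm]; exact hρ1))).differentiableWithinAt
  · intro s hs
    have hs' := hs
    rw [mem_ball, dist_eq_norm] at hs'
    obtain ⟨r, hr1, hr2⟩ := exists_between hs'
    have hr0 : 0 < r := (norm_nonneg _).trans_lt hr1
    obtain ⟨C, hC0, hC, -⟩ := hco r hr0 hr2
    have hsum : Summable fun n : ℕ => C * (‖s - c‖ / r) ^ n :=
      (summable_geometric_of_lt_one (by positivity) ((div_lt_one hr0).2 hr1)).mul_left C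
    have h1 : ∀ k, g k s = ∑' n : ℕ, (n ! : ℂ)⁻¹ * iteratedDeriv n (g k) c * (s - c) ^ n :=
      fun k => (taylorSeries_eq_on_ball' hs (hd k).differentiableOn).symm
    simp_rw [h1]
    refine tendsto_tsum_of_dominated_convergence hsum (fun n => ?_)
      (Eventually.of_forall fun k n => ?_)
    · exact ((hl n).const_mul _).mul_const _
    · rw [norm_mul, norm_pow]
      calc ‖(n ! : ℂ)⁻¹ * iteratedDeriv n (g k) c‖ * ‖s - c‖ ^ n ≤ C / r ^ n * ‖s - c‖ ^ n := by
            gcongr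
            exact hC k n
        _ = C * (‖s - c‖ / r) ^ n := by rw [div_pow]; ring

/-- convergence of all derivatives spreads over the disc -/
theorem CP.spread {f : ℕ → ℂ → ℂ} (hf : ∀ k, Differentiable ℂ (f k)) {c : ℂ} {R : ℝ}
    (hb : ∀ r < R, ∃ C, ∀ k, ∀ s ∈ closedBall c r, ‖f k s‖ ≤ C) (h : CP f c) {s : ℂ}
    (hs : s ∈ ball c R) : CP f s := by
  intro m
  choose l hl using h
  have hg := tann (g := fun k => iteratedDeriv m (f k)) (c := c) (R := R)
    (fun k => iter_diff (hf k) m) (fun r hr => ?_) (l := fun n => l (m + n)) (fun n => ?_)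
  · exact ⟨_, hg.2 s hs⟩
  · -- Cauchy's estimates
    set r' : ℝ := (r + R) / 2 with hr'
    have h1 : r < r' := by rw [hr']; linarith
    have h2 : r' < R := by rw [hr']; linarith
    obtain ⟨C, hC⟩ := hb r' h2
    refine ⟨m ! * C / (r' - r) ^ m, fun k z hz => ?_⟩
    refine norm_iteratedDeriv_le_of_forall_mem_sphere_norm_le (f := f k) (c := z) m (by linarith)
      (hf k).diffContOnCl fun w hw => hC k w ?_
    rw [mem_sphere] at hw
    rw [mem_closedBall] at hz ⊢
    linarith [dist_triangle w z c]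
  · simp_rw [iter_iter]
    exact hl (m + n)

theorem CP.zero {f : ℕ → ℂ → ℂ} {c : ℂ} (h : CP f c) :
    ∃ l, Tendsto (fun k => f k c) atTop (𝓝 l) := by
  obtain ⟨l, hl⟩ := h 0
  simp_rw [iteratedDeriv_zero] at hl
  exact ⟨l, hl⟩

/-- convergence spreads to the left along half lines -/
theorem CP.chain {f : ℕ → ℂ → ℂ} (hf : ∀ k, Differentiable ℂ (f k)) {U : Set ℂ}
    (hU : ∀ s ∈ U, ∀ x : ℝ, 0 ≤ x → s + x ∈ U)
    (hb : ∀ s ∈ U, ∃ r > 0, ∃ M : ℝ, ∀ k, ∀ z ∈ ball s r, (f k z).re ≤ M) {A : ℝ}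
    (hA : ∀ s : ℂ, A < s.re → CP f s) {s₀ : ℂ} (hs₀ : s₀ ∈ U) : CP f s₀ := by
  set R : ℝ := |A| + |s₀.re| + 1 with hR
  have hR0 : 0 < R := by positivity
  set Sg : Set ℂ := (fun x : ℝ => s₀ + (x : ℂ)) '' Icc (0 : ℝ) R with hSg
  have hSgc : IsCompact Sg := isCompact_Icc.image (by fun_prop)
  have hSgU : Sg ⊆ U := by
    rintro _ ⟨x, hx, rfl⟩
    exact hU s₀ hs₀ x hx.1
  choose! r hr M hM using hb
  obtain ⟨δ, hδ, hcov⟩ := lebesgue_number_lemma_of_metric (s := Sg) (c := fun z : Sg => ball z.1 (r z.1))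
    hSgc (fun _ => isOpen_ball) fun z hz => mem_iUnion.2 ⟨⟨z, hz⟩, mem_ball_self (hr z (hSgU hz))⟩
  have hball : ∀ z ∈ Sg, ∃ M' : ℝ, ∀ k, ∀ w ∈ ball z δ, (f k w).re ≤ M' := by
    intro z hz
    obtain ⟨i, hi⟩ := hcov z hz
    exact ⟨M i.1, fun k w hw => hM i.1 (hSgU i.2) k w (hi hw)⟩
  -- the number of steps
  obtain ⟨N, hN⟩ := exists_nat_gt (2 * R / δ)
  have hN0 : (0 : ℝ) < N := lt_trans (by positivity) hN
  set h : ℝ := R / N with hh
  have hh0 : 0 < h := by positivity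
  have hhδ : h ≤ δ / 2 := by
    rw [hh, div_le_iff₀ hN0]
    have := (div_lt_iff₀ hδ).1 hN
    nlinarith
  have key : ∀ n : ℕ, n ≤ N → CP f (s₀ + ((R - n * h : ℝ) : ℂ)) := by
    intro n
    induction n with
    | zero =>
      intro _
      apply hA
      rw [Complex.add_re, Complex.ofReal_re, hR]
      have := le_abs_self A
      have := neg_abs_le s₀.re
      push_cast
      linarith
    | succ n ih =>
      intro hn
      have h1 := ih (by omega)
      have hn' : (n : ℝ) + 1 ≤ N := by exact_mod_cast hn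
      have hNh : (N : ℝ) * h = R := by rw [hh]; field_simp
      have hx : (R - n * h) ∈ Icc (0 : ℝ) R := by
        constructor
        · nlinarith
        · have : 0 ≤ n * h := by positivity
          linarith
      obtain ⟨M', hM'⟩ := hball _ ⟨R - n * h, hx, rfl⟩
      obtain ⟨l, hl⟩ := h1.zero
      refine CP.spread hf (fun r hr => bc hf hM' hl hr) h1 (R := δ) ?_
      rw [mem_ball, dist_eq_norm]
      have h2 : s₀ + ((R - (n + 1 : ℕ) * h : ℝ) : ℂ) - (s₀ + ((R - n * h : ℝ) : ℂ)) =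
          ((-h : ℝ) : ℂ) := by
        push_cast
        ring
      rw [h2, Complex.norm_real, Real.norm_eq_abs, abs_neg, abs_of_pos hh0]
      linarith
  have h3 := key N le_rfl
  have hNh : (N : ℝ) * h = R := by rw [hh]; field_simp
  rw [hNh, sub_self, Complex.ofReal_zero, add_zero] at h3
  exact h3

/-- **the limit function** -/
theorem limit_fun {f : ℕ → ℂ → ℂ} (hf : ∀ k, Differentiable ℂ (f k)) {U : Set ℂ}
    (hU : ∀ s ∈ U, ∀ x : ℝ, 0 ≤ x → s + x ∈ U)
    (hb : ∀ s ∈ U, ∃ r > 0, ∃ M : ℝ, ∀ k, ∀ z ∈ ball s r, (f k z).re ≤ M) {A : ℝ}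
    (hA : ∀ s : ℂ, A < s.re → CP f s) :
    ∃ ℓ : ℂ → ℂ, DifferentiableOn ℂ ℓ U ∧ ∀ s ∈ U, Tendsto (fun k => f k s) atTop (𝓝 (ℓ s)) := by
  have h1 : ∀ s ∈ U, ∃ l, Tendsto (fun k => f k s) atTop (𝓝 l) := fun s hs =>
    (CP.chain hf hU hb hA hs).zero
  choose! ℓ hℓ using h1
  refine ⟨ℓ, fun s hs => ?_, hℓ⟩
  obtain ⟨r, hr, M, hM⟩ := hb s hs
  have h2 := CP.chain hf hU hb hA hs
  obtain ⟨l₀, hl₀⟩ := h2.zero
  have h3 := h2
  choose l hl using h3
  obtain ⟨h4, h5⟩ := tann hf (fun ρ hρ => bc hf hM hl₀ hρ) hl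
  have h6 : ∀ z ∈ U ∩ ball s r, ℓ z = ∑' n : ℕ, (n ! : ℂ)⁻¹ * l n * (z - s) ^ n := fun z hz =>
    tendsto_nhds_unique (hℓ z hz.1) (h5 z hz.2)
  have h7 := (h4.differentiableAt (isOpen_ball.mem_nhds (mem_ball_self hr))).differentiableWithinAt
    (s := U ∩ ball s r)
  have h8 : DifferentiableWithinAt ℂ ℓ (U ∩ ball s r) s :=
    h7.congr h6 (h6 s ⟨hs, mem_ball_self hr⟩)
  exact (differentiableWithinAt_inter (isOpen_ball.mem_nhds (mem_ball_self hr))).1 h8

end Pool.Agent.V7H1.SM
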