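import Pool.Agent.V7H1.SM.Rate
import Pool.Agent.V7H1.SM.Vit

/-! The branch of the logarithm on a right-convex domain, and the equivalence. -/

set_option autoImplicit false

namespace Pool.Agent.V7H1.SM

open Complex Filter Topology Set Metric

/-- an open set stable by translation to the right which contains a half-plane is simply
connected -/
theorem RightOpen.simply {U : Set ℂ} (hU : RightOpen U) {A : ℝ} (hA : ∀ s : ℂ, A < s.re → s ∈ U) :
    IsSimplyConnected U := by
  set ρ : ℂ → ℝ := fun s => max 0 (A + 1 - s.re) with hρ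
  have hρc : Continuous ρ := by
    rw [hρ]
    exact continuous_const.max (continuous_const.sub Complex.continuous_re)
  have hρ0 : ∀ s, 0 ≤ ρ s := fun s => le_max_left _ _
  have hρ1 : ∀ s : ℂ, A + 1 ≤ s.re + ρ s := fun s => by
    have := le_max_right 0 (A + 1 - s.re)
    rw [hρ]; simp only; linarith
  set r : C(U, U) := ⟨fun s => ⟨s.1 + (ρ s.1 : ℂ), hU.right s.1 s.2 _ (hρ0 _)⟩,
    Continuous.subtype_mk (by fun_prop) _⟩ with hr
  set p : U := ⟨((A + 1 : ℝ) : ℂ), hA _ (by rw [Complex.ofReal_re]; linarith)⟩ with hp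
  have h1 : ContinuousMap.Homotopic (ContinuousMap.id U) r := by
    refine ⟨⟨⟨fun x => ⟨x.2.1 + (((x.1 : ℝ) * ρ x.2.1 : ℝ) : ℂ),
      hU.right x.2.1 x.2.2 _ (mul_nonneg x.1.2.1 (hρ0 _))⟩, Continuous.subtype_mk (by fun_prop) _⟩,
      fun x => ?_, fun x => ?_⟩⟩
    · apply Subtype.ext
      simp
    · apply Subtype.ext
      simp [hr]
  have h2 : ContinuousMap.Homotopic r (ContinuousMap.const U p) := by
    have hmem : ∀ (t : unitInterval) (s : U),
        (((1 - (t : ℝ) : ℝ)) : ℂ) * (s.1 + (ρ s.1 : ℂ)) + ((t : ℝ) : ℂ) * ((A + 1 : ℝ) : ℂ) ∈ U := by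
      intro t s
      apply hA
      have e1 := hρ1 s.1
      have e2 := t.2.1
      have e3 := t.2.2
      rw [Complex.add_re, Complex.re_ofReal_mul, Complex.re_ofReal_mul, Complex.add_re,
        Complex.ofReal_re, Complex.ofReal_re]
      nlinarith
    refine ⟨⟨⟨fun x => ⟨_, hmem x.1 x.2⟩, Continuous.subtype_mk (by fun_prop) _⟩,
      fun x => ?_, fun x => ?_⟩⟩
    · apply Subtype.ext
      simp [hr]
    · apply Subtype.ext
      simp [hp]
  have h3 : ContractibleSpace U :=
    (contractible_iff_id_nullhomotopic U).2 ⟨p, h1.trans h2⟩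
  show SimplyConnectedSpace U
  infer_instance

variable {ι : Type} {A : ℝ} {lam : ι → ℝ} {c : ι → ℂ}

/-- **the branch of the logarithm** -/
theorem CD.exists_log (D : CD A lam c) {U : Set ℂ} (hU : RightOpen U) {F : ℂ → ℂ}
    (hF : DifferentiableOn ℂ F U) (hF0 : ∀ s ∈ U, F s ≠ 0)
    (heq : ∀ s ∈ U, A < s.re → F s = exp (cser lam c s)) :
    ∃ ℓ : ℂ → ℂ, DifferentiableOn ℂ ℓ U ∧ (∀ s ∈ U, exp (ℓ s) = F s) ∧
      ∀ s ∈ U, A < s.re → ℓ s = cser lam c s := by
  classical
  set H : Set ℂ := {s : ℂ | A < s.re} with hH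
  have hHo : IsOpen H := isOpen_lt continuous_const Complex.continuous_re
  set V : Set ℂ := U ∪ H with hV
  have hVr : RightOpen V := ⟨hU.op.union hHo, fun s hs x hx => by
    rcases hs with hs | hs
    · exact Or.inl (hU.right s hs x hx)
    · refine Or.inr ?_
      have h1 : A < s.re := hs
      show A < (s + (x : ℂ)).re
      rw [Complex.add_re, Complex.ofReal_re]
      linarith⟩
  set F' : ℂ → ℂ := fun s => if s ∈ U then F s else exp (cser lam c s) with hF'
  have hFU : ∀ s ∈ U, F' s = F s := fun s hs => if_pos hs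
  have hFH : ∀ s ∈ H, F' s = exp (cser lam c s) := by
    intro s hs
    by_cases h : s ∈ U
    · rw [hFU s h, heq s h hs]
    · exact if_neg h
  have hFUe : ∀ s ∈ U, F' =ᶠ[𝓝 s] F := fun s hs => by
    filter_upwards [hU.op.mem_nhds hs] with z hz
    exact hFU z hz
  have hFHe : ∀ s ∈ H, F' =ᶠ[𝓝 s] fun z => exp (cser lam c z) := fun s hs => by
    filter_upwards [hHo.mem_nhds hs] with z hz
    exact hFH z hz
  have hF'd : ∀ s ∈ V, DifferentiableAt ℂ F' s := by
    rintro s (hs | hs)
    · exact (hF.differentiableAt (hU.op.mem_nhds hs)).congr_of_eventuallyEq (hFUe s hs)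
    · exact (D.cser_diff hs).cexp.congr_of_eventuallyEq (hFHe s hs)
  have hF'0 : ∀ s ∈ V, F' s ≠ 0 := by
    intro s hs
    by_cases h : s ∈ U
    · rw [hFU s h]; exact hF0 s h
    · rw [hF']
      simp only [if_neg h]
      exact exp_ne_zero _
  obtain ⟨g, hgc, hg⟩ := Complex.exists_continuousOn_eqOn_exp_comp
    (hVr.simply (A := A) fun s hs => Or.inr hs) hVr.op (g := F')
    (fun s hs => (hF'd s hs).continuousAt.continuousWithinAt) (by
      rintro ⟨s, hs, h0⟩
      exact hF'0 s hs h0)
  have hg' : ∀ s ∈ V, exp (g s) = F' s := fun s hs => hg hs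
  -- differentiability of the branch
  have hgd : ∀ s ∈ V, DifferentiableAt ℂ g s := by
    intro s hs
    have hcont : ContinuousAt g s := hgc.continuousAt (hVr.op.mem_nhds hs)
    have h1 : ∀ᶠ z in 𝓝 s, g z = g s + log (F' z / F' s) := by
      have h2 : ∀ᶠ z in 𝓝 s, ‖g z - g s‖ < Real.pi := by
        have h3 : Tendsto (fun z => ‖g z - g s‖) (𝓝 s) (𝓝 0) := by
          have := (hcont.sub (continuousAt_const (y := g s))).norm
          simpa [ContinuousAt] using this
        exact h3.eventually (gt_mem_nhds Real.pi_pos)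
      filter_upwards [h2, hVr.op.mem_nhds hs] with z hz hzV
      rw [← hg' z hzV, ← hg' s hs, ← Complex.exp_sub]
      have h4 := (Complex.abs_im_le_norm (g z - g s)).trans_lt hz
      rw [Complex.log_exp (by linarith [(abs_lt.1 h4).1]) (by linarith [(abs_lt.1 h4).2])]
      ring
    have h5 : DifferentiableAt ℂ (fun z => g s + log (F' z / F' s)) s := by
      refine (DifferentiableAt.clog ((hF'd s hs).div_const _) ?_).const_add _
      rw [div_self (hF'0 s hs)]
      exact Complex.one_mem_slitPlane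
    exact h5.congr_of_eventuallyEq h1
  -- the constant
  set p : ℂ := ((A + 1 : ℝ) : ℂ) with hp
  have hpH : p ∈ H := by
    show A < (((A + 1 : ℝ) : ℂ)).re
    rw [Complex.ofReal_re]; linarith
  set h : ℂ → ℂ := fun s => g s - cser lam c s with hh
  have hexp : ∀ s ∈ H, exp (h s) = 1 := by
    intro s hs
    rw [hh]
    simp only
    rw [Complex.exp_sub, hg' s (Or.inr hs), hFH s hs, div_self (exp_ne_zero _)]
  have hhd : ∀ s ∈ H, DifferentiableAt ℂ h s := fun s hs =>
    (hgd s (Or.inr hs)).sub (D.cser_diff hs)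
  have hder : H.EqOn (deriv h) 0 := by
    intro s hs
    have h1 : (fun z => exp (h z)) =ᶠ[𝓝 s] fun _ => 1 := by
      filter_upwards [hHo.mem_nhds hs] with z hz
      exact hexp z hz
    have h2 := (hhd s hs).hasDerivAt.cexp
    have h3 := h2.deriv
    rw [h1.deriv_eq, deriv_const, hexp s hs, one_mul] at h3
    exact h3.symm
  have hconv : IsPreconnected H := by
    have : Convex ℝ H := convex_halfSpace_re_gt A
    exact this.isPreconnected
  have hconst : ∀ s ∈ H, h s = h p := fun s hs =>
    hHo.is_const_of_deriv_eq_zero hconv (fun z hz => (hhd z hz).differentiableWithinAt) hder hs hpH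
  refine ⟨fun s => g s - h p, fun s hs => ?_, fun s hs => ?_, fun s hs hs2 => ?_⟩
  · exact ((hgd s (Or.inl hs)).sub_const _).differentiableWithinAt
  · rw [Complex.exp_sub, hexp p hpH, div_one, hg' s (Or.inl hs), hFU s hs]
  · have h1 := hconst s hs2
    rw [hh] at h1 ⊢
    simp only at h1 ⊢
    linear_combination h1

/-- convergence of all derivatives in the half-plane of absolute convergence -/
theorem CD.base [Countable ι] (D : CD A lam c) (γ : ℝ) {t : ℕ → ℝ} (ht : Tendsto t atTop atTop)
    (ht0 : ∀ k, 0 < t k) {s : ℂ} (hs : A < s.re) : CP (fun k => rot lam c γ (t k)) s := by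
  set H : Set ℂ := {s : ℂ | A < s.re} with hH
  have hHo : IsOpen H := isOpen_lt continuous_const Complex.continuous_re
  have hHr : RightOpen H := ⟨hHo, fun s hs x hx => by
    have h1 : A < s.re := hs
    show A < (s + (x : ℂ)).re
    rw [Complex.add_re, Complex.ofReal_re]
    linarith⟩
  have hd : DifferentiableOn ℂ (cser lam c) H := fun s hs =>
    (D.cser_diff hs).differentiableWithinAt
  have h0 : TendstoLocallyUniformlyOn (fun k => rot lam c γ (t k)) (cser lam c) atTop H := by
    rw [tendstoLocallyUniformlyOn_iff_forall_isCompact hHo]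
    intro K hKH hK
    obtain ⟨C, T₀, hT₀, hC⟩ := D.rate hHr hd (fun s _ _ => rfl) γ hK hKH
    rw [Metric.tendstoUniformlyOn_iff]
    intro ε hε
    have h1 : Tendsto (fun k => C / t k) atTop (𝓝 0) := tendsto_const_nhds.div_atTop ht
    filter_upwards [ht.eventually (eventually_ge_atTop T₀), h1.eventually (gt_mem_nhds hε)]
      with k hk1 hk2 z hz
    rw [dist_comm, dist_eq_norm]
    exact (hC _ hk1 z hz).trans_lt hk2
  have h1 : ∀ m, TendstoLocallyUniformlyOn (fun k => iteratedDeriv m (rot lam c γ (t k)))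
      (iteratedDeriv m (cser lam c)) atTop H := by
    intro m
    induction m with
    | zero => simpa [iteratedDeriv_zero] using h0
    | succ m ih =>
      have h2 := ih.deriv (Eventually.of_forall fun k =>
        (iter_diff (D.rot_diff γ (ht0 k)) m).differentiableOn) hHo
      simp_rw [iteratedDeriv_succ]
      exact h2
  intro m
  exact ⟨_, (h1 m).tendsto_at hs⟩

/-- **The equivalence.** -/
theorem CD.tfae [Countable ι] (D : CD A lam c) {U : Set ℂ} (hU : RightOpen U) (γ : ℝ) :
    List.TFAE [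
      ∃ F : ℂ → ℂ, DifferentiableOn ℂ F U ∧ (∀ s ∈ U, F s ≠ 0) ∧
        ∀ s ∈ U, A < s.re → F s = exp (cser lam c s),
      ∃ t : ℕ → ℝ, Tendsto t atTop atTop ∧ (∀ k, 0 < t k) ∧
        ∀ s ∈ U, ∃ r > 0, ∃ M : ℝ, ∀ k, ∀ z ∈ ball s r, ‖exp (rot lam c γ (t k) z)‖ ≤ M,
      ∃ ℓ : ℂ → ℂ, DifferentiableOn ℂ ℓ U ∧ (∀ s ∈ U, A < s.re → ℓ s = cser lam c s) ∧
        ∀ K ⊆ U, IsCompact K → ∃ C T₀ : ℝ, 0 < T₀ ∧ ∀ T ≥ T₀, ∀ s ∈ K,
          ‖rot lam c γ T s - ℓ s‖ ≤ C / T] := by
  tfae_have 1 → 3 := by
    rintro ⟨F, hF, hF0, heq⟩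
    obtain ⟨ℓ, h1, -, h3⟩ := D.exists_log hU hF hF0 heq
    exact ⟨ℓ, h1, h3, fun K hKU hK => D.rate hU h1 h3 γ hK hKU⟩
  tfae_have 3 → 2 := by
    rintro ⟨ℓ, h1, -, h3⟩
    refine ⟨fun k => k + 1, ?_, fun k => by positivity, fun s hs => ?_⟩
    · exact tendsto_natCast_atTop_atTop.atTop_add tendsto_const_nhds
    · obtain ⟨r, hr, hrU⟩ := Metric.isOpen_iff.1 hU.op s hs
      have hsub : closedBall s (r / 2) ⊆ U :=
        (closedBall_subset_ball (by linarith)).trans hrU
      obtain ⟨C, T₀, hT₀, hC⟩ := h3 _ hsub (isCompact_closedBall s (r / 2))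
      obtain ⟨B, hB⟩ := (isCompact_closedBall s (r / 2)).exists_bound_of_continuousOn
        (h1.continuousOn.mono hsub)
      -- the finitely many first sums
      obtain ⟨n, hn⟩ := exists_nat_gt T₀
      have hfin : ∀ m : ℕ, ∃ M : ℝ, ∀ k < m, ∀ z ∈ closedBall s (r / 2),
          ‖rot lam c γ ((k : ℝ) + 1) z‖ ≤ M := by
        intro m
        induction m with
        | zero => exact ⟨0, fun k hk => absurd hk (by omega)⟩
        | succ m ih =>
          obtain ⟨M, hM⟩ := ih
          obtain ⟨M', hM'⟩ := (isCompact_closedBall s (r / 2)).exists_bound_of_continuousOn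
            (D.rot_diff γ (T := (m : ℝ) + 1) (by positivity)).continuous.continuousOn
          refine ⟨max M M', fun k hk z hz => ?_⟩
          rcases Nat.lt_succ_iff_lt_or_eq.1 hk with h | h
          · exact (hM k h z hz).trans (le_max_left _ _)
          · subst h
            exact (hM' z hz).trans (le_max_right _ _)
      obtain ⟨M, hM⟩ := hfin n
      refine ⟨r / 2, by positivity, Real.exp (max M (B + |C| / T₀)), fun k z hz => ?_⟩
      have hz' := ball_subset_closedBall hz
      rw [Complex.norm_exp]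
      apply Real.exp_le_exp.2
      refine (Complex.re_le_norm _).trans ?_
      by_cases hk : k < n
      · exact (hM k hk z hz').trans (le_max_left _ _)
      · push Not at hk
        have hk' : T₀ ≤ (k : ℝ) + 1 := by
          have : (n : ℝ) ≤ k := by exact_mod_cast hk
          linarith
        have h4 := hC _ hk' z hz'
        have h5 := hB z hz'
        have h6 := norm_le_norm_sub_add (rot lam c γ ((k : ℝ) + 1) z) (ℓ z)
        have h7 : C / ((k : ℝ) + 1) ≤ |C| / T₀ := by
          calc C / ((k : ℝ) + 1) ≤ |C| / ((k : ℝ) + 1) := by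
                gcongr
                exact le_abs_self C
            _ ≤ |C| / T₀ := by gcongr
        refine le_trans ?_ (le_max_right _ _)
        linarith
  tfae_have 2 → 1 := by
    rintro ⟨t, ht, ht0, hb⟩
    have hb' : ∀ s ∈ U, ∃ r > 0, ∃ M : ℝ, ∀ k, ∀ z ∈ ball s r, (rot lam c γ (t k) z).re ≤ M := by
      intro s hs
      obtain ⟨r, hr, M, hM⟩ := hb s hs
      refine ⟨r, hr, Real.log M, fun k z hz => ?_⟩
      have h1 := hM k z hz
      rw [Complex.norm_exp] at h1
      rwa [Real.le_log_iff_exp_le (lt_of_lt_of_le (Real.exp_pos _) h1)]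
    obtain ⟨ℓ, h1, h2⟩ := limit_fun (fun k => D.rot_diff γ (ht0 k)) hU.right hb'
      (fun s hs => D.base γ ht ht0 hs)
    refine ⟨fun s => exp (ℓ s), h1.cexp, fun s _ => exp_ne_zero _, fun s hs hsA => ?_⟩
    show exp (ℓ s) = exp (cser lam c s)
    congr 1
    -- the limit in the half-plane
    have hHo : IsOpen {s : ℂ | A < s.re} := isOpen_lt continuous_const Complex.continuous_re
    have hHr : RightOpen {s : ℂ | A < s.re} := ⟨hHo, fun s hs x hx => by
      have h1 : A < s.re := hs
      show A < (s + (x : ℂ)).re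
      rw [Complex.add_re, Complex.ofReal_re]
      linarith⟩
    obtain ⟨C, T₀, hT₀, hC⟩ := D.rate hHr (ℓ := cser lam c)
      (fun s hs => (D.cser_diff hs).differentiableWithinAt) (fun s _ _ => rfl) γ
      (isCompact_singleton (x := s)) (by
        rw [singleton_subset_iff]
        exact hsA)
    refine tendsto_nhds_unique (h2 s hs) ?_
    rw [tendsto_iff_norm_sub_tendsto_zero]
    have h3 : Tendsto (fun k => C / t k) atTop (𝓝 0) := tendsto_const_nhds.div_atTop ht
    refine squeeze_zero' (Eventually.of_forall fun k => norm_nonneg _) ?_ h3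
    filter_upwards [ht.eventually (eventually_ge_atTop T₀)] with k hk
    exact hC _ hk s rfl
  tfae_finish

end Pool.Agent.V7H1.SM
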