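import Pool.Agent.W187.UR.NF

/-! Rotated summation of Dirichlet series in right-convex domains. -/

set_option autoImplicit false

namespace Pool.Agent.V7H1.SM

open Complex MeasureTheory Filter Topology Set Metric
open scoped Interval
open Pool.Agent.W189.ML (J om HS Adm J_hasSum J_exp J_exp_zero J_const_mul J_sub J_congr J_shift'
  HS_mono om_le)

variable {ι : Type}

/-- data of a Dirichlet series with complex coefficients, absolutely convergent for `Re s > A` -/
structure CD (A : ℝ) (lam : ι → ℝ) (c : ι → ℂ) : Prop where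
  nonneg : ∀ i, 0 ≤ lam i
  sum : ∀ σ : ℝ, A < σ → Summable fun i => ‖c i‖ * Real.exp (-(σ * lam i))

/-- the series -/
noncomputable def cser (lam : ι → ℝ) (c : ι → ℂ) (s : ℂ) : ℂ :=
  ∑' i, c i * exp (-(s * lam i))

/-- the rotated sum -/
noncomputable def rot (lam : ι → ℝ) (c : ι → ℂ) (γ T : ℝ) (s : ℂ) : ℂ :=
  ∑' i, c i * exp (-(s * lam i)) * (exp ((γ * (lam i / T) : ℝ) * I) * (om (lam i / T) : ℂ))

variable {A : ℝ} {lam : ι → ℝ} {c : ι → ℂ}

theorem norm_term (s : ℂ) (x : ℂ) (l : ℝ) : ‖x * exp (-(s * l))‖ = ‖x‖ * Real.exp (-(s.re * l)) := by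
  rw [norm_mul, Complex.norm_exp, Complex.neg_re, Complex.re_mul_ofReal]

theorem exp_anti {σ σ' l : ℝ} (h : σ ≤ σ') (hl : 0 ≤ l) :
    Real.exp (-(σ' * l)) ≤ Real.exp (-(σ * l)) := by
  apply Real.exp_le_exp.2
  nlinarith

/-- the terms of the rotated sum are dominated -/
theorem CD.rot_bound (D : CD A lam c) (γ : ℝ) {T : ℝ} (hT : 0 < T) (σ : ℝ) {s : ℂ}
    (hs : σ ≤ s.re) (i : ι) :
    ‖c i * exp (-(s * lam i)) * (exp ((γ * (lam i / T) : ℝ) * I) * (om (lam i / T) : ℂ))‖ ≤
      (Real.exp (Real.exp ((|A| + 1 + |σ|) * T)) + 1) * (‖c i‖ * Real.exp (-((|A| + 1) * lam i))) := by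
  have hl := D.nonneg i
  have hv : 0 ≤ lam i / T := div_nonneg hl hT.le
  set a : ℝ := (|A| + 1 + |σ|) with ha
  have ha0 : 0 ≤ a := by positivity
  have h1 := om_le (a := a * T) (v := lam i / T) (by positivity) hv
  have h2 : a * T * (lam i / T) = a * lam i := by field_simp
  rw [h2] at h1
  have h3 : 0 ≤ om (lam i / T) := Pool.Agent.W189.ML.om_nonneg hv
  rw [norm_mul, norm_term, norm_mul, Complex.norm_exp_ofReal_mul_I, one_mul, Complex.norm_real,
    Real.norm_eq_abs, abs_of_nonneg h3]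
  calc ‖c i‖ * Real.exp (-(s.re * lam i)) * om (lam i / T)
      ≤ ‖c i‖ * Real.exp (-(σ * lam i)) *
        ((Real.exp (Real.exp (a * T)) + 1) * Real.exp (-(a * lam i))) := by
        gcongr
    _ = (Real.exp (Real.exp (a * T)) + 1) *
        (‖c i‖ * Real.exp (-((σ + a) * lam i))) := by
        have : Real.exp (-((σ + a) * lam i)) =
            Real.exp (-(σ * lam i)) * Real.exp (-(a * lam i)) := by
          rw [← Real.exp_add]; congr 1; ring
        rw [this]
        ring
    _ ≤ _ := by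
        refine mul_le_mul_of_nonneg_left ?_ (by positivity)
        refine mul_le_mul_of_nonneg_left (exp_anti ?_ hl) (norm_nonneg _)
        have := neg_abs_le σ
        rw [ha]
        linarith

theorem CD.rot_summable (D : CD A lam c) (γ : ℝ) {T : ℝ} (hT : 0 < T) (s : ℂ) :
    Summable fun i => ‖c i * exp (-(s * lam i)) *
      (exp ((γ * (lam i / T) : ℝ) * I) * (om (lam i / T) : ℂ))‖ := by
  refine Summable.of_nonneg_of_le (fun i => norm_nonneg _)
    (fun i => D.rot_bound γ hT s.re le_rfl i) ?_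
  exact (D.sum (|A| + 1) (by have := le_abs_self A; linarith)).mul_left _

/-- the rotated sums are entire -/
theorem CD.rot_diff (D : CD A lam c) (γ : ℝ) {T : ℝ} (hT : 0 < T) :
    Differentiable ℂ (rot lam c γ T) := by
  intro s
  have ho : IsOpen {z : ℂ | s.re - 1 < z.re} := isOpen_lt continuous_const Complex.continuous_re
  have h1 : DifferentiableOn ℂ (rot lam c γ T) {z : ℂ | s.re - 1 < z.re} := by
    unfold rot
    refine Complex.differentiableOn_tsum_of_summable_norm
      ((D.sum (|A| + 1) (by have := le_abs_self A; linarith)).mul_left _) (fun i => ?_) ho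
      (fun i z hz => D.rot_bound γ hT (s.re - 1) (le_of_lt hz) i)
    exact Differentiable.differentiableOn (by fun_prop)
  exact h1.differentiableAt (ho.mem_nhds (show s.re - 1 < s.re by linarith))

theorem CD.cser_le (D : CD A lam c) {σ : ℝ} (hσ : A < σ) {s : ℂ} (hs : σ ≤ s.re) :
    ‖cser lam c s‖ ≤ ∑' i, ‖c i‖ * Real.exp (-(σ * lam i)) := by
  unfold cser
  refine tsum_of_norm_bounded (D.sum σ hσ).hasSum fun i => ?_
  rw [norm_term]
  exact mul_le_mul_of_nonneg_left (exp_anti hs (D.nonneg i)) (norm_nonneg _)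

theorem CD.cser_diff (D : CD A lam c) {s : ℂ} (hs : A < s.re) :
    DifferentiableAt ℂ (cser lam c) s := by
  set ρ : ℝ := (A + s.re) / 2 with hρ
  have hρ1 : A < ρ := by rw [hρ]; linarith
  have hρσ : ρ < s.re := by rw [hρ]; linarith
  have hopen : IsOpen {z : ℂ | ρ < z.re} := isOpen_lt continuous_const Complex.continuous_re
  have h1 : DifferentiableOn ℂ (cser lam c) {z : ℂ | ρ < z.re} := by
    unfold cser
    refine Complex.differentiableOn_tsum_of_summable_norm
      (D.sum _ hρ1) (fun i => ?_) hopen (fun i z hz => ?_)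
    · exact Differentiable.differentiableOn (by fun_prop)
    · rw [norm_term]
      exact mul_le_mul_of_nonneg_left (exp_anti (le_of_lt hz) (D.nonneg i)) (norm_nonneg _)
  exact h1.differentiableAt (hopen.mem_nhds hρσ)

/-- the rotated sum as a contour integral -/
theorem CD.rot_eq [Countable ι] (D : CD A lam c) (γ : ℝ) {T b : ℝ} (hT : 0 < T) (hb : 0 ≤ b)
    {s : ℂ} (hs : A < s.re + b / T) :
    J b (fun z => cser lam c (s + (z - γ * I) / T)) = rot lam c γ T s := by
  have hTc : (T : ℂ) ≠ 0 := by exact_mod_cast hT.ne'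
  have hre : ∀ z ∈ HS b, s.re + b / T ≤ (s + (z - γ * I) / T).re := by
    intro z hz
    have : (s + (z - γ * I) / T).re = s.re + z.re / T := by simp
    rw [this]
    gcongr
    exact hz.1
  have hbd : ∀ i, ∀ z ∈ HS b, ‖c i * exp (-((s + (z - γ * I) / T) * lam i))‖ ≤
      ‖c i‖ * Real.exp (-((s.re + b / T) * lam i)) := by
    intro i z hz
    rw [norm_term]
    exact mul_le_mul_of_nonneg_left (exp_anti (hre z hz) (D.nonneg i)) (norm_nonneg _)
  have h1 := J_hasSum (a := b) hb (F := fun i z => c i * exp (-((s + (z - γ * I) / T) * lam i)))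
    (D.sum _ hs)
    (fun i => ⟨by fun_prop, ‖c i‖ * Real.exp (-((s.re + b / T) * lam i)), 0, by positivity, le_rfl,
      fun z hz => by
        have := hbd i z hz
        linarith⟩) hbd
  have h2 : ∀ i, J b (fun z => c i * exp (-((s + (z - γ * I) / T) * lam i))) =
      c i * exp (-(s * lam i)) * (exp ((γ * (lam i / T) : ℝ) * I) * (om (lam i / T) : ℂ)) := by
    intro i
    have e3 : (fun z : ℂ => c i * exp (-((s + (z - γ * I) / T) * lam i))) =
        fun z => (c i * exp (-(s * lam i)) * exp ((γ * (lam i / T) : ℝ) * I)) *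
          exp (-(z * ((lam i / T : ℝ) : ℂ))) := by
      funext z
      rw [mul_assoc, mul_assoc, ← Complex.exp_add, ← Complex.exp_add]
      congr 2
      push_cast
      field_simp
      ring
    rw [e3, J_const_mul, J_exp]
    unfold om
    push_cast
    ring
  simp only [h2] at h1
  exact h1.tsum_eq.symm

/-- open sets which are stable by translation to the right -/
structure RightOpen (U : Set ℂ) : Prop where
  op : IsOpen U
  right : ∀ s ∈ U, ∀ x : ℝ, 0 ≤ x → s + x ∈ U

set_option maxHeartbeats 1000000 in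
/-- **convergence with the rate `1/T`** -/
theorem CD.rate [Countable ι] (D : CD A lam c) {U : Set ℂ} (hU : RightOpen U) {ℓ : ℂ → ℂ}
    (hℓ : DifferentiableOn ℂ ℓ U) (heq : ∀ s ∈ U, A < s.re → ℓ s = cser lam c s) (γ : ℝ)
    {K : Set ℂ} (hK : IsCompact K) (hKU : K ⊆ U) :
    ∃ C T₀ : ℝ, 0 < T₀ ∧ ∀ T ≥ T₀, ∀ s ∈ K, ‖rot lam c γ T s - ℓ s‖ ≤ C / T := by
  have hpi := Real.pi_pos
  obtain ⟨ρ, hρ⟩ : ∃ ρ : ℝ, ∀ s ∈ K, |s.re| ≤ ρ := by
    obtain ⟨ρ, hρ⟩ := hK.isBounded.exists_norm_le
    exact ⟨ρ, fun s hs => (Complex.abs_re_le_norm s).trans (hρ s hs)⟩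
  set R : ℝ := |A| + |ρ| + 3 with hR
  have hR0 : 0 < R := by positivity
  have hRA : ∀ s ∈ K, A + 2 < s.re + R := by
    intro s hs
    have h1 := (abs_le.1 (hρ s hs)).1
    have h2 := le_abs_self A
    have h3 := le_abs_self ρ
    rw [hR]; linarith
  -- a compact neighbourhood
  set K₁ : Set ℂ := (fun q : ℂ × ℝ => q.1 + (q.2 : ℂ)) '' (K ×ˢ Icc (0 : ℝ) R) with hK₁
  have hK₁c : IsCompact K₁ := (hK.prod isCompact_Icc).image (by fun_prop)
  have hK₁U : K₁ ⊆ U := by
    rintro _ ⟨⟨s, x⟩, ⟨hs, hx⟩, rfl⟩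
    exact hU.right s (hKU hs) x hx.1
  obtain ⟨δ, hδ, hδU⟩ := hK₁c.exists_cthickening_subset_open hU.op hK₁U
  set K₂ : Set ℂ := cthickening δ K₁ with hK₂
  have hK₂c : IsCompact K₂ := hK₁c.cthickening
  have hmem2 : ∀ s ∈ K, ∀ w : ℂ, 0 ≤ w.re → w.re ≤ R → |w.im| ≤ δ → s + w ∈ K₂ := by
    intro s hs w h1 h2 h3
    have h4 : s + (w.re : ℂ) ∈ K₁ := ⟨(s, w.re), ⟨hs, h1, h2⟩, rfl⟩
    refine mem_cthickening_of_dist_le _ _ _ _ h4 ?_
    rw [dist_eq_norm]
    have h5 : s + w - (s + (w.re : ℂ)) = w.im * I := by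
      apply Complex.ext <;> simp
    rw [h5, norm_mul, Complex.norm_I, mul_one, Complex.norm_real, Real.norm_eq_abs]
    exact h3
  have hmemU : ∀ s ∈ K, ∀ w : ℂ, 0 ≤ w.re → |w.im| ≤ δ → s + w ∈ U := by
    intro s hs w h1 h3
    by_cases h2 : w.re ≤ R
    · exact hδU (hmem2 s hs w h1 h2 h3)
    · push Not at h2
      have h4 : s + (R + w.im * I) ∈ U :=
        hδU (hmem2 s hs (R + w.im * I) (by simpa using hR0.le) (by simp) (by simpa using h3))
      have h5 := hU.right _ h4 (w.re - R) (by linarith)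
      have h6 : s + (R + w.im * I) + ((w.re - R : ℝ) : ℂ) = s + w := by
        apply Complex.ext <;> simp
      rwa [h6] at h5
  -- bounds for the derivative
  have hderiv : ContinuousOn (deriv ℓ) U :=
    (hℓ.deriv hU.op).continuousOn
  obtain ⟨M₁, hM₁⟩ := hK₂c.exists_bound_of_continuousOn (hderiv.mono hδU)
  set S : ℝ := ∑' i, ‖c i‖ * Real.exp (-((A + 1) * lam i)) with hS
  have hS0 : 0 ≤ S := tsum_nonneg fun i => by positivity
  have hM₂ : ∀ w ∈ U, A + 2 < w.re → ‖deriv ℓ w‖ ≤ S := by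
    intro w hw hwA
    have h1 : ℓ =ᶠ[𝓝 w] cser lam c := by
      have ho : IsOpen {z : ℂ | A < z.re} := isOpen_lt continuous_const Complex.continuous_re
      filter_upwards [hU.op.mem_nhds hw, ho.mem_nhds (show A < w.re by linarith)] with z h1 h2
      exact heq z h1 h2
    rw [h1.deriv_eq]
    have h2 : ∀ z ∈ closedBall w 1, A + 1 ≤ z.re := by
      intro z hz
      rw [mem_closedBall, dist_eq_norm] at hz
      have := (Complex.abs_re_le_norm (z - w)).trans hz
      rw [Complex.sub_re] at this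
      have := (abs_le.1 this).1
      linarith
    have h3 := Complex.norm_deriv_le_of_forall_mem_sphere_norm_le (f := cser lam c) (c := w)
      (R := 1) (C := S) one_pos (by
        refine DifferentiableOn.diffContOnCl_ball (U := {z : ℂ | A < z.re}) ?_ ?_
        · intro z hz
          exact (D.cser_diff hz).differentiableWithinAt
        · intro z hz
          have := h2 z hz
          show A < z.re
          linarith) fun z hz => D.cser_le (by linarith) (h2 z (sphere_subset_closedBall hz))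
    simpa using h3
  set M : ℝ := max M₁ S with hM
  have hM0 : 0 ≤ M := hS0.trans (le_max_right _ _)
  have hdb : ∀ s ∈ K, ∀ w : ℂ, 0 ≤ w.re → |w.im| ≤ δ → ‖deriv ℓ (s + w)‖ ≤ M := by
    intro s hs w h1 h3
    by_cases h2 : w.re ≤ R
    · exact (hM₁ _ (hmem2 s hs w h1 h2 h3)).trans (le_max_left _ _)
    · push Not at h2
      refine (hM₂ _ (hmemU s hs w h1 h3) ?_).trans (le_max_right _ _)
      have := hRA s hs
      rw [Complex.add_re]
      linarith
  have hlip : ∀ s ∈ K, ∀ w : ℂ, 0 ≤ w.re → |w.im| ≤ δ → ‖ℓ (s + w) - ℓ s‖ ≤ M * ‖w‖ := by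
    intro s hs w h1 h3
    set Q : Set ℂ := {z | s.re ≤ z.re ∧ |z.im - s.im| ≤ δ} with hQ
    have hQc : Convex ℝ Q := by
      intro z hz z' hz' p q hp hq hpq
      constructor
      · have e1 : s.re ≤ z.re := hz.1
        have e2 : s.re ≤ z'.re := hz'.1
        have e3 : q = 1 - p := by linarith
        subst e3
        simp only [Complex.add_re, Complex.real_smul, Complex.re_ofReal_mul]
        nlinarith
      · have e1 := abs_le.1 hz.2
        have e2 := abs_le.1 hz'.2
        simp only [Complex.add_im, Complex.real_smul, Complex.im_ofReal_mul]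
        rw [abs_le]
        have e3 : q = 1 - p := by linarith
        subst e3
        constructor <;> nlinarith
    have hQd : ∀ z ∈ Q, DifferentiableAt ℂ ℓ z ∧ ‖deriv ℓ z‖ ≤ M := by
      intro z hz
      have e1 : s + (z - s) = z := by ring
      have e2 : 0 ≤ (z - s).re := by rw [Complex.sub_re]; linarith [hz.1]
      have e3 : |(z - s).im| ≤ δ := by rw [Complex.sub_im]; exact hz.2
      have e4 := hmemU s hs (z - s) e2 e3
      have e5 := hdb s hs (z - s) e2 e3
      rw [e1] at e4 e5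
      exact ⟨hℓ.differentiableAt (hU.op.mem_nhds e4), e5⟩
    have h4 := hQc.norm_image_sub_le_of_norm_deriv_le (𝕜 := ℂ) (f := ℓ) (C := M) (x := s)
      (y := s + w) (fun z hz => (hQd z hz).1) (fun z hz => (hQd z hz).2)
      ⟨le_rfl, by simpa using hδ.le⟩ ⟨by simpa using h1, by simpa using h3⟩
    have h5 : s + w - s = w := by ring
    rwa [h5] at h4
  -- the estimate
  refine ⟨(Real.exp (Real.exp 1) + 1) * (M * (1 + |γ|) * 5), (Real.pi + |γ|) / δ + 1,
    by positivity, fun T hT s hs => ?_⟩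
  have hq : 0 ≤ (Real.pi + |γ|) / δ := by positivity
  have hT1 : 1 ≤ T := by linarith
  have hT0 : 0 < T := by linarith
  have hTδ : (Real.pi + |γ|) / T ≤ δ := by
    rw [div_le_iff₀ hT0, mul_comm, ← div_le_iff₀ hδ]; linarith
  set w : ℂ → ℂ := fun z => (z - γ * I) / T with hw
  have hwre : ∀ z : ℂ, (w z).re = z.re / T := fun z => by rw [hw]; simp
  have hwim : ∀ z : ℂ, (w z).im = (z.im - γ) / T := fun z => by rw [hw]; simp
  have hwd : Differentiable ℂ w := by rw [hw]; fun_prop
  have hw1 : ∀ z ∈ HS 1, 0 ≤ (w z).re ∧ |(w z).im| ≤ δ := by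
    intro z hz
    have h1 : 0 ≤ z.re := by linarith [hz.1]
    refine ⟨by rw [hwre]; positivity, ?_⟩
    rw [hwim, abs_div, abs_of_pos hT0]
    refine le_trans ?_ hTδ
    gcongr
    exact (abs_sub _ _).trans (add_le_add hz.2 le_rfl)
  have hwn : ∀ z ∈ HS 1, ‖w z‖ ≤ (1 + |γ|) * (4 + z.re) / T := by
    intro z hz
    have h1 : 0 ≤ z.re := by linarith [hz.1]
    rw [hw]
    simp only
    rw [norm_div, Complex.norm_real, Real.norm_eq_abs, abs_of_pos hT0]
    gcongr
    have h2 := norm_sub_le z (γ * I)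
    rw [norm_mul, Complex.norm_I, mul_one, Complex.norm_real, Real.norm_eq_abs] at h2
    have h3 := Complex.norm_le_abs_re_add_abs_im z
    rw [abs_of_nonneg h1] at h3
    have h4 := hz.2
    have h5 := Real.pi_lt_four
    have h6 := abs_nonneg γ
    nlinarith
  have hlb : ∀ z ∈ HS 1, ‖ℓ (s + w z) - ℓ s‖ ≤ M * (1 + |γ|) / T * (4 + z.re) := by
    intro z hz
    refine (hlip s hs (w z) (hw1 z hz).1 (hw1 z hz).2).trans ?_
    calc M * ‖w z‖ ≤ M * ((1 + |γ|) * (4 + z.re) / T) :=
          mul_le_mul_of_nonneg_left (hwn z hz) hM0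
      _ = _ := by ring
  have hdf : DifferentiableOn ℂ (fun z => ℓ (s + w z)) (HS 1) := by
    refine hℓ.comp (by fun_prop : Differentiable ℂ fun z => s + w z).differentiableOn
      fun z hz => hmemU s hs _ (hw1 z hz).1 (hw1 z hz).2
  have hadm : Adm 1 (fun z => ℓ (s + w z)) := by
    refine ⟨hdf.continuousOn, ‖ℓ s‖ + M * (1 + |γ|) / T * 4, M * (1 + |γ|) / T, by positivity,
      by positivity, fun z hz => ?_⟩
    have h1 := hlb z hz
    have h2 := norm_le_norm_sub_add (ℓ (s + w z)) (ℓ s)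
    nlinarith
  have hadc : Adm 1 (fun _ : ℂ => ℓ s) :=
    ⟨continuousOn_const, ‖ℓ s‖, 0, norm_nonneg _, le_rfl, fun z _ => by simp⟩
  set b : ℝ := T * R with hb
  have hR1 : 1 ≤ R := by
    rw [hR]
    have := abs_nonneg A
    have := abs_nonneg ρ
    linarith
  have hb1 : 1 ≤ b := by rw [hb]; nlinarith
  have hbT : b / T = R := by rw [hb]; field_simp
  have e1 : J b (fun z => cser lam c (s + w z)) = rot lam c γ T s :=
    D.rot_eq γ hT0 (by linarith) (by rw [hbT]; linarith [hRA s hs])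
  have e2 : J b (fun z => cser lam c (s + w z)) = J b (fun z => ℓ (s + w z)) := by
    refine J_congr fun z hz => ?_
    have hz1 := HS_mono hb1 hz
    refine (heq _ (hmemU s hs _ (hw1 z hz1).1 (hw1 z hz1).2) ?_).symm
    rw [Complex.add_re, hwre]
    have h1 : R ≤ z.re / T := by
      rw [le_div_iff₀ hT0, mul_comm]
      exact hz.1
    linarith [hRA s hs]
  have e3 : J b (fun z => ℓ (s + w z)) = J 1 (fun z => ℓ (s + w z)) :=
    (J_shift' zero_le_one hb1 hadm hdf).symm
  have e4 : J 1 (fun _ : ℂ => ℓ s) = ℓ s := by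
    have h1 : (fun _ : ℂ => ℓ s) = fun z => ℓ s * exp (-(z * ((0 : ℝ) : ℂ))) := by
      funext z
      simp
    rw [h1, J_const_mul, J_exp_zero, mul_one]
  have e5 : rot lam c γ T s - ℓ s = J 1 (fun z => ℓ (s + w z) - ℓ s) := by
    rw [J_sub zero_le_one hadm hadc, e4, ← e3, ← e2, e1]
  rw [e5]
  refine (Pool.Agent.W189.LC.norm_J_lin (M := M * (1 + |γ|) / T) (by positivity) hlb).trans
    (le_of_eq ?_)
  field_simp

end Pool.Agent.V7H1.SM
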